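import Pool.Agent.Run7.h915.SRMain

/-!
MP_51f008_lc, Q1: yes. There is a `Pi^1_1`-sound, `Pi^1_1`-definable theory `T` extending
`Sigma^1_1-AC_0` which proves its own `Pi^1_1`-soundness.

`T` is a recursive set of true sentences (closures of all instances of comprehension and choice
and the basic axioms) together with two true sentences about the arithmetization. The `Pi^1_1`
formula `τ(a)` says that `a` is an axiom and that the axioms which are not larger than `a` are
`Pi^1_1`-sound (the method of Feferman, Arithmetization of metamathematics in a general setting).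
-/

set_option autoImplicit false

namespace Pool.Agent.Results.MP_51f008_lc.OwnSoundness

open Pool.Agent.H986R3.SOA Pool.Agent.Run7.h915.SR

/-- For every arithmetization of metamathematics in which each proof uses only finitely many
axioms there is a set `T` of true sentences extending `Sigma^1_1-AC_0` which is `Pi^1_1`-sound and
has a `Pi^1_1` definition `τ` such that `T` proves
`∀ φ ∈ Pi^1_1 (Pr_τ(φ) → True(φ))`. -/
theorem result : ∀ 𝒜 : Arithmetization, FiniteUse 𝒜 →
    ∃ T : Set Fm, ExtendsSigma11AC0 T ∧ (∀ φ ∈ T, std.Holds φ) ∧ Pi11Sound T ∧
      ProvesOwnSoundnessPi 𝒜 T :=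
  fun 𝒜 h => main 𝒜 h

end Pool.Agent.Results.MP_51f008_lc.OwnSoundness
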